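import Pool.Agent.Lib.MP_1618a1_an.Final
import Pool.Agent.Lib.MP_1618a1_an.Bridge

/-!
# The possible homological dimensions of Banach function algebras

There is a Banach function algebra `B` whose global dimension and bidimension are `3`.  So of the
alternatives (i), (ii) with `n = 0, 1, 2, ...` only (ii) with `n = 0` is possible, for both sets
`Mg` and `Mb`: they are `{0, 2, 3, 4, ...} ∪ {∞}`.
-/

set_option autoImplicit false

namespace Pool.Agent.Results.MP_1618a1_an.DimensionThree

open Pool.Agent.Lib.MP_1618a1_an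

lemma altII_zero : altII 0 = {x : ℕ∞ | x ≠ 1} := by
  ext x
  simp only [altII, Set.mem_union, Set.mem_ofPred_eq, Set.mem_singleton_iff]
  constructor
  · rintro ((⟨k, rfl⟩ | ⟨k, hk, rfl⟩) | rfl)
    · intro h
      have : 2 * k = 1 := by exact_mod_cast h
      omega
    · intro h
      have : 2 * k + 1 = 1 := by exact_mod_cast h
      omega
    · exact ENat.top_ne_one
  · intro hx
    induction x using ENat.recTopCoe with
    | top => exact Or.inr rfl
    | coe m =>
      left
      rcases Nat.even_or_odd' m with ⟨k, rfl | rfl⟩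
      · exact Or.inl ⟨k, rfl⟩
      · refine Or.inr ⟨k, ?_, rfl⟩
        by_contra hk
        have : k = 0 := by omega
        subst this
        exact hx rfl

lemma three_notMem_altI : (3 : ℕ∞) ∉ altI := by
  rintro (⟨k, hk⟩ | h)
  · have : 3 = 2 * k := by exact_mod_cast hk
    omega
  · exact absurd h (by simp)

lemma three_notMem_altII {n : ℕ} (hn : 1 ≤ n) : (3 : ℕ∞) ∉ altII n := by
  rintro ((⟨k, hk⟩ | ⟨k, hk1, hk⟩) | h)
  · have : 3 = 2 * k := by exact_mod_cast hk
    omega
  · have : 3 = 2 * k + 1 := by exact_mod_cast hk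
    omega
  · exact absurd h (by simp)

lemma alternatives {S : Set ℕ∞} (h3 : 3 ∈ S) :
    S ≠ altI ∧ (∀ n, 1 ≤ n → S ≠ altII n) ∧
      ((S = altI ∨ ∃ n, S = altII n) → S = altII 0 ∧ S = {x : ℕ∞ | x ≠ 1}) := by
  have h1 : S ≠ altI := fun h => three_notMem_altI (h ▸ h3)
  have h2 : ∀ n, 1 ≤ n → S ≠ altII n := fun n hn h => three_notMem_altII hn (h ▸ h3)
  refine ⟨h1, h2, ?_⟩
  rintro (h | ⟨n, h⟩)
  · exact absurd h h1
  · rcases Nat.eq_zero_or_pos n with rfl | hn
    · exact ⟨h, h.trans altII_zero⟩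
    · exact absurd h (h2 n hn)

/-- the algebra `M` as a Banach function algebra -/
noncomputable def theAlg : BanachFunctionAlgebra where
  A := MAlg
  semisimple := isBFA_MAlg.2

lemma gdim_theAlg : gdim theAlg.A = 3 := (gdim_eq MAlg).trans dg_MAlg

lemma bidim_theAlg : bidim theAlg.A = 3 := (bidim_eq MAlg).trans db_MAlg

/-- There is a Banach function algebra of global dimension and bidimension `3`; hence each of the
sets `Mg`, `Mb` is neither alternative (i) nor alternative (ii) with some `n ≥ 1`, and if it is one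
of the alternatives then it is (ii) with `n = 0`, that is all of `{0, 2, 3, 4, ...} ∪ {∞}`. -/
theorem result :
    (∃ B : BanachFunctionAlgebra, gdim B.A = 3 ∧ bidim B.A = 3) ∧
    ∀ S ∈ ({Mg, Mb} : Set (Set ℕ∞)),
      3 ∈ S ∧ S ≠ altI ∧ (∀ n, 1 ≤ n → S ≠ altII n) ∧
      ((S = altI ∨ ∃ n, S = altII n) → S = altII 0 ∧ S = {x : ℕ∞ | x ≠ 1}) := by
  refine ⟨⟨theAlg, gdim_theAlg, bidim_theAlg⟩, ?_⟩
  rintro S (rfl | rfl)
  · have h3 : (3 : ℕ∞) ∈ Mg := ⟨theAlg, gdim_theAlg⟩
    exact ⟨h3, alternatives h3⟩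
  · have h3 : (3 : ℕ∞) ∈ Mb := ⟨theAlg, bidim_theAlg⟩
    exact ⟨h3, alternatives h3⟩

end Pool.Agent.Results.MP_1618a1_an.DimensionThree
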